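import Mathlib
import Pool.Agent.H18.QT.Main
import Pool.Agent.H33.QT.ModA
import Pool.Agent.H37.PP.PrimC
import Pool.Agent.H37.PP.PrimD

set_option autoImplicit false

namespace Pool.Agent.Results.MP_0c9a68_nt.CharacterTwists

/-- The function `f` is `T`-good at the scale `N`: the bound of Q1 holds for the function `d j (n) * f n * n ^ (i t)` at
the place `j`, for ALL real `|t| ≤ T`, with the given functions `d i` at the other places outside `S`, and ALL bounded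
multiplicative functions at the places of `S`. -/
def Good {k : ℕ} (h : Fin k → ℤ) (j : Fin k) (ε : ℝ) (S : Finset (Fin k))
    (d : Fin k → ArithmeticFunction ℂ) (T : ℝ) (N : ℕ) (f : ℕ → ℂ) : Prop :=
  ∀ t : ℝ, |t| ≤ T → ∀ G : Fin k → ArithmeticFunction ℂ, (∀ i n, ‖G i n‖ ≤ 1) →
    (∀ i ∈ S, (G i).IsMultiplicative) → (∀ i, i ∉ S → i ≠ j → G i = d i) →
    (∀ n : ℕ, 0 < n → G j n = d j n * (f n * (n : ℂ) ^ ((t : ℂ) * Complex.I))) →
    ‖(1 / (N : ℂ)) * ∑ n ∈ Finset.Icc 1 N, ∏ i, G i ((n : ℤ) + h i).toNat‖ ≤ ε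

open Classical in
/-- Twists by Dirichlet characters and `n ^ (i t)`.  For arbitrary bounded functions `d`: (1) all but `K` of all
primitive characters of conductor `q`, `P q² (1 + T) ≤ N` (or `T = 0`, `q` prime, `q ≤ N ^ (1 - δ)`) are `T`-good at
`N`; (2) all but `K` of the characters modulo any `q ≤ N / P`, and all but `K (1 + q / N)` of the characters modulo a
prime `q`, are `0`-good at `N`; (3) all but `K / η` of all primitive characters are, for arbitrarily large `X`,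
`T`-good at all `N ≤ X` except `η X`.  (4) No exceptions: every primitive character of conductor `q ≥ P` times
`w(n) n ^ (i t)`, `w` of period `m` prime to `q`, `N ≥ P q m (1 + |t|)` (for `t = 0` and `q` prime already
`N ≥ m q ^ (1/2 + δ)`), with all multiplicative functions at the other places. -/
theorem result (k : ℕ) (h : Fin k → ℤ) (j : Fin k) (hne : ∀ i, i ≠ j → h i ≠ h j) {ε δ : ℝ}
    (hε : 0 < ε) (hδ : 0 < δ) : ∃ K P : ℕ,
    (∀ S : Finset (Fin k), j ∉ S → ∀ d : Fin k → ArithmeticFunction ℂ, (∀ i n, ‖d i n‖ ≤ 1) →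
      (∀ T : ℝ, 0 ≤ T → ∀ N : ℕ, ∃ E : Finset (Σ q : ℕ, DirichletCharacter ℂ q), E.card ≤ K ∧
        ∀ (q : ℕ) (χ : DirichletCharacter ℂ q), 1 ≤ q → (P * (q : ℝ) ^ 2 * (1 + T) ≤ N ∨
          (T = 0 ∧ q.Prime ∧ (q : ℝ) ≤ (N : ℝ) ^ (1 - δ))) → χ.IsPrimitive →
        ⟨q, χ⟩ ∉ E → Good h j ε S d T N (fun n => χ n)) ∧
      (∀ q N : ℕ, 1 ≤ q → 1 ≤ N → ∃ E : Finset (DirichletCharacter ℂ q),
        (P * q ≤ N → E.card ≤ K) ∧ (q.Prime → (E.card : ℝ) ≤ K * (1 + q / N)) ∧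
        ∀ χ : DirichletCharacter ℂ q, χ ∉ E → Good h j ε S d 0 N (fun n => χ n)) ∧
      (∀ T : ℝ, 0 ≤ T → ∀ η : ℝ, 0 < η →
        ∃ E : Finset (Σ q : ℕ, DirichletCharacter ℂ q), (E.card : ℝ) ≤ K / η ∧
        ∀ (q : ℕ) (χ : DirichletCharacter ℂ q), 1 ≤ q → χ.IsPrimitive → ⟨q, χ⟩ ∉ E →
        ∀ X₀ : ℕ, ∃ X : ℕ, X₀ ≤ X ∧
        (((Finset.Icc 1 X).filter fun N => ¬ Good h j ε S d T N (fun n => χ n)).card : ℝ) ≤
          η * X)) ∧
    (∀ (q : ℕ) (χ : DirichletCharacter ℂ q), P ≤ q → χ.IsPrimitive →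
      ∀ m : ℕ, 0 < m → q.Coprime m → ∀ w : ℕ → ℂ, (∀ n, w (n + m) = w n) → (∀ n, ‖w n‖ ≤ 1) →
      ∀ (t : ℝ) (N : ℕ), (P * (q * m) * (1 + |t|) ≤ N ∨
        (t = 0 ∧ q.Prime ∧ (m : ℝ) * (q : ℝ) ^ (1 / 2 + δ) ≤ N)) →
      ∀ G : Fin k → ArithmeticFunction ℂ, (∀ i n, ‖G i n‖ ≤ 1) →
      (∀ i, i ≠ j → (G i).IsMultiplicative) →
      (∀ n : ℕ, 0 < n → G j n = χ n * w n * (n : ℂ) ^ ((t : ℂ) * Complex.I)) →
      ‖(1 / (N : ℂ)) * ∑ n ∈ Finset.Icc 1 N, ∏ i, G i ((n : ℤ) + h i).toNat‖ ≤ ε) := by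
  obtain ⟨K₁, P₁, h1⟩ := Pool.H37.PP.primT k h j hne hε
  obtain ⟨K₂, P₂, h2⟩ := Pool.H37.PP.primC k h j hne hε hδ
  obtain ⟨K₃, P₃, h3⟩ := Pool.Agent.H33.QT.modAll k h j hne hε
  obtain ⟨K₄, h4⟩ := Pool.Agent.H18.QT.chars k h j hne hε
  obtain ⟨P₅, h5⟩ := Pool.H37.PP.fixedT k h j hne hε
  obtain ⟨P₆, h6⟩ := Pool.Agent.H18.QT.fixedD (Pool.Agent.H18.QT.weilD 0) k h j hne hε hδ
  have ht0 : ∀ {t : ℝ}, |t| ≤ 0 → t = 0 := fun {t} ht => abs_eq_zero.1 (le_antisymm ht (abs_nonneg t))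
  have hz : ∀ {f g : ArithmeticFunction ℂ} {u : ℕ → ℂ} {t : ℝ}, |t| ≤ 0 →
      (∀ n : ℕ, 0 < n → f n = g n * (u n * (n : ℂ) ^ ((t : ℂ) * Complex.I))) →
      ∀ n : ℕ, f n = g n * u n := by
    intro f g u t ht h n
    rcases Nat.eq_zero_or_pos n with h0 | h0
    · rw [h0, ArithmeticFunction.map_zero, ArithmeticFunction.map_zero, zero_mul]
    · rw [h n h0, ht0 ht, Complex.ofReal_zero, zero_mul, Complex.cpow_zero, mul_one]
  obtain ⟨P, hP⟩ : ∃ P, P = P₁ + P₂ + P₃ + P₅ + P₆ := ⟨_, rfl⟩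
  have hcast : ∀ P' : ℕ, P' ≤ P → (P' : ℝ) ≤ (P : ℝ) := fun P' h => by exact_mod_cast h
  have hK : ∀ S : Finset (Fin k), j ∉ S → ∀ d : Fin k → ArithmeticFunction ℂ,
      (∀ i n, ‖d i n‖ ≤ 1) → ∀ T : ℝ, 0 ≤ T → ∀ N : ℕ,
        ∃ E : Finset (Σ q : ℕ, DirichletCharacter ℂ q), E.card ≤ K₁ + K₂ ∧
        ∀ (q : ℕ) (χ : DirichletCharacter ℂ q), 1 ≤ q → (P * (q : ℝ) ^ 2 * (1 + T) ≤ N ∨
          (T = 0 ∧ q.Prime ∧ (q : ℝ) ≤ (N : ℝ) ^ (1 - δ))) →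
        χ.IsPrimitive → ⟨q, χ⟩ ∉ E → Good h j ε S d T N (fun n => χ n) := by
    intro S hS d hd T hT N
    obtain ⟨E₁, hE₁, hE₁'⟩ := h1 N S hS d hd T hT
    obtain ⟨E₂, hE₂, hE₂'⟩ := h2 N S hS d hd
    refine ⟨E₁ ∪ E₂, (Finset.card_union_le _ _).trans (by omega), fun q χ hq hqN hχ hχE => ?_⟩
    rw [Finset.mem_union, not_or] at hχE
    rcases hqN with hqN | ⟨hT0, hqp, hqN⟩
    · intro t ht G hG hGS hGd hGj
      refine hE₁' q (by omega) (le_trans ?_ hqN) χ hχ hχE.1 t ht G hG hGS hGd hGj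
      have := hcast P₁ (by omega)
      gcongr
    · intro t ht G hG hGS hGd hGj
      rw [hT0] at ht
      exact hE₂' q (by omega) (Or.inr ⟨hqp, hqN⟩) χ hχ hχE.2 G hG hGS hGd (hz ht hGj)
  refine ⟨K₁ + K₂ + K₃ + K₄, P, fun S hS d hd => ⟨fun T hT N => ?_, fun q N hq hN => ?_,
    fun T hT η hη => ?_⟩, ?_⟩
  · obtain ⟨E, hE, hE2⟩ := hK S hS d hd T hT N
    exact ⟨E, by omega, hE2⟩
  · by_cases hPq : P * q ≤ N
    · obtain ⟨E, hE, hE2⟩ := h3 q (by omega) N (le_trans (Nat.mul_le_mul_right _ (by omega)) hPq)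
        S hS d hd
      refine ⟨E, fun _ => by omega, fun _ => ?_,
        fun χ hχ t ht G hG hGS hGd hGj => hE2 χ hχ G hG hGS hGd (hz ht hGj)⟩
      have e1 : (E.card : ℝ) ≤ ((K₁ + K₂ + K₃ + K₄ : ℕ) : ℝ) := by exact_mod_cast (by omega)
      have e2 : (0 : ℝ) ≤ (q : ℝ) / N := by positivity
      have e3 : (0 : ℝ) ≤ ((K₁ + K₂ + K₃ + K₄ : ℕ) : ℝ) := Nat.cast_nonneg _
      nlinarith
    · by_cases hp : q.Prime
      · obtain ⟨E, hE, hE2⟩ := h4 q hp N hN S hS d hd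
        refine ⟨E, fun h => absurd h hPq, fun _ => hE.trans ?_,
          fun χ hχ t ht G hG hGS hGd hGj => hE2 χ hχ G hG hGS hGd (hz ht hGj)⟩
        refine mul_le_mul_of_nonneg_right ?_ (by positivity)
        exact_mod_cast (by omega : K₄ ≤ K₁ + K₂ + K₃ + K₄)
      · exact ⟨Finset.univ, fun h => absurd h hPq, fun h => absurd h hp,
          fun χ hχ => absurd (Finset.mem_univ χ) hχ⟩
  · obtain ⟨c, hc⟩ := exists_nat_ge (1 + T)
    obtain ⟨E, hE, hE2⟩ := Pool.Agent.H18.QT.density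
      (fun z : Σ q : ℕ, DirichletCharacter ℂ q => P * z.1 ^ 2 * c)
      (fun N z => 1 ≤ z.1 ∧ z.2.IsPrimitive ∧ ¬ Good h j ε S d T N (fun n => z.2 n)) (K₁ + K₂)
      (fun N => by
        obtain ⟨E, hE, hE2⟩ := hK S hS d hd T hT N
        refine ⟨E, hE, fun z hz hzE hb => hb.2.2 (hE2 z.1 z.2 hb.1 (Or.inl ?_) hb.2.1 hzE)⟩
        have hz' : ((P * z.1 ^ 2 * c : ℕ) : ℝ) ≤ (N : ℝ) := Nat.cast_le.2 hz
        push_cast at hz'
        exact le_trans (mul_le_mul_of_nonneg_left hc (by positivity)) hz') hη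
    refine ⟨E, hE.trans ?_, fun q χ hq hχ hχE X₀ => ?_⟩
    · refine div_le_div_of_nonneg_right ?_ hη.le
      exact_mod_cast (by omega : K₁ + K₂ ≤ K₁ + K₂ + K₃ + K₄)
    · obtain ⟨X, hX, hX2⟩ := hE2 ⟨q, χ⟩ hχE X₀
      refine ⟨X, hX, le_trans ?_ hX2⟩
      refine Nat.cast_le.2 (Finset.card_le_card fun N hN => ?_)
      simp only [Finset.mem_filter] at hN ⊢
      exact ⟨hN.1, hq, hχ, hN.2⟩
  · intro q χ hPq hχ m hm hqm w hw hwb t N hN G hG hGm hGj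
    rcases hN with hN | ⟨rfl, hq, hN⟩
    · refine h5 q (by omega) χ hχ m hm hqm.symm w hw hwb t N (le_trans ?_ hN) G hG hGm hGj
      have := hcast P₅ (by omega)
      have := abs_nonneg t
      gcongr
    · have hNe : NeZero q := ⟨hq.ne_zero⟩
      refine h6 q hq (by omega) χ ?_ (pow_zero χ) m hm ((Nat.Prime.coprime_iff_not_dvd hq).1 hqm) N hN
        w hw hwb G hG hGm fun n hn => ?_
      · rintro rfl
        have h7 : (1 : DirichletCharacter ℂ q).conductor = q := hχ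
        rw [DirichletCharacter.conductor_one] at h7
        exact hq.one_lt.ne h7
      · rw [hGj n hn, Complex.ofReal_zero, zero_mul, Complex.cpow_zero, mul_one]

end Pool.Agent.Results.MP_0c9a68_nt.CharacterTwists
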